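import Mathlib

/-!
# lcm-analogues of binomial coefficients for divisibility sequences

The library proof for Lucas sequences, carried out for all sequences with the shift property of divisibility,
in particular for all strong divisibility sequences.
-/

set_option autoImplicit false

namespace Pool.Agent.Results.MP_763eff_nt.StrongDivisibilitySequences

open Finset

/-- The Lucas sequence `U(P,Q)`. -/
def U (P Q : ℤ) : ℕ → ℤ
  | 0 => 0
  | 1 => 1
  | n + 2 => P * U P Q (n + 1) - Q * U P Q n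

/-- The positive lcm of the terms `A j`, `j ∈ s`. -/
def lcmA (A : ℕ → ℤ) (s : Finset ℕ) : ℕ := s.lcm fun j => (A j).natAbs

/-- The `A`-binomial coefficient. -/
def binomA (A : ℕ → ℤ) (n k : ℕ) : ℚ :=
  (∏ j ∈ Ioc (n - k) n, (A j : ℚ)) / ∏ j ∈ Ioc 0 k, (A j : ℚ)

/-- The lcm-analogue of the `A`-binomial coefficient. -/
def lcmBinomA (A : ℕ → ℤ) (n k : ℕ) : ℚ :=
  (lcmA A (Ioc (n - k) n) : ℚ) / (lcmA A (Ioc 0 k) : ℚ)

/-- The shift property: for a divisor `q` of `A r` the indices of the terms divisible by `q` are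
invariant under the shift by `r`; here `A 0 = 0` and no other term is zero. -/
def DivShift (A : ℕ → ℤ) : Prop :=
  A 0 = 0 ∧ (∀ j, 1 ≤ j → A j ≠ 0) ∧
    ∀ (q : ℤ) (r s : ℕ), 1 ≤ r → q ∣ A r → (q ∣ A (r + s) ↔ q ∣ A s)

/-- Strong divisibility sequences: `gcd (A m, A n) = |A (gcd (m, n))|`. -/
def StrongDiv (A : ℕ → ℤ) : Prop :=
  ∀ m n, Int.gcd (A m) (A n) = (A (Nat.gcd m n)).natAbs

theorem StrongDiv.shift {A : ℕ → ℤ} (h : StrongDiv A) (q : ℤ) (r s : ℕ) (hq : q ∣ A r) :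
    q ∣ A (r + s) ↔ q ∣ A s := by
  have hdvd : ∀ m n : ℕ, m ∣ n → A m ∣ A n := by
    intro m n hmn
    have h1 := h m n
    rw [Nat.gcd_eq_left hmn] at h1
    have h2 : ((Int.gcd (A m) (A n) : ℕ) : ℤ) ∣ A n := Int.gcd_dvd_right _ _
    rw [h1] at h2
    exact (Int.natAbs_dvd).1 h2
  have hg : ∀ m n : ℕ, q ∣ A m → q ∣ A n → q ∣ A (Nat.gcd m n) := by
    intro m n h1 h2
    have h3 : q ∣ ((Int.gcd (A m) (A n) : ℕ) : ℤ) := Int.dvd_coe_gcd h1 h2
    rw [h m n] at h3
    exact (Int.dvd_natAbs).1 h3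
  constructor
  · intro h1
    have h2 := hg r (r + s) hq h1
    rw [Nat.gcd_self_add_right] at h2
    exact h2.trans (hdvd _ _ (Nat.gcd_dvd_right r s))
  · intro h1
    exact (hg r s hq h1).trans (hdvd _ _ (dvd_add (Nat.gcd_dvd_left r s) (Nat.gcd_dvd_right r s)))

theorem U_add (P Q : ℤ) (m : ℕ) : ∀ n : ℕ,
    U P Q (m + n + 1) = U P Q (m + 1) * U P Q (n + 1) - Q * U P Q m * U P Q n
  | 0 => by simp [U]
  | 1 => by
    have : U P Q 2 = P := by simp [U]
    rw [show m + 1 + 1 = m + 2 from rfl, show 1 + 1 = 2 from rfl, this, U]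
    simp [U]; ring
  | n + 2 => by
    have h0 := U_add P Q m n
    have h1 := U_add P Q m (n + 1)
    have e1 : U P Q (m + (n + 2) + 1) = P * U P Q (m + (n + 1) + 1) - Q * U P Q (m + n + 1) := by
      rw [show m + (n + 2) + 1 = (m + n + 1) + 2 by ring, U]
      rfl
    have e2 : U P Q (n + 2 + 1) = P * U P Q (n + 1 + 1) - Q * U P Q (n + 1) := by
      rw [show n + 2 + 1 = (n + 1) + 2 by ring, U]
    have e3 : U P Q (n + 2) = P * U P Q (n + 1) - Q * U P Q n := by rw [U]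
    have e4 : U P Q (n + 1 + 1) = U P Q (n + 2) := rfl
    rw [e1, h0, h1, e2, e4, e3]
    ring

theorem cop (P Q : ℤ) (h : IsCoprime P Q) (r : ℕ) :
    IsCoprime (U P Q (r + 1)) Q ∧ IsCoprime (U P Q (r + 1)) (U P Q r) := by
  induction r with
  | zero => simp [U, isCoprime_one_left]
  | succ r ih =>
    have e : U P Q (r + 1 + 1) = P * U P Q (r + 1) - Q * U P Q r := by
      rw [show r + 1 + 1 = r + 2 from rfl, U]
    rw [e]
    constructor
    · have := (IsCoprime.mul_left h ih.1).add_mul_left_left (-(U P Q r))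
      rwa [show P * U P Q (r + 1) + Q * -(U P Q r) = P * U P Q (r + 1) - Q * U P Q r by ring] at this
    · have := ((IsCoprime.mul_left ih.1.symm ih.2.symm).neg_left).add_mul_left_left P
      rwa [show -(Q * U P Q r) + U P Q (r + 1) * P = P * U P Q (r + 1) - Q * U P Q r by ring] at this

theorem shift (P Q : ℤ) (h : IsCoprime P Q) (q : ℤ) (r s : ℕ) (hr : 1 ≤ r) (hq : q ∣ U P Q r) :
    q ∣ U P Q (r + s) ↔ q ∣ U P Q s := by
  obtain ⟨m, rfl⟩ : ∃ m, r = m + 1 := ⟨r - 1, by omega⟩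
  rw [show m + 1 + s = m + s + 1 by ring, U_add]
  constructor
  · intro h1
    have h2 : q ∣ Q * U P Q m * U P Q s := by
      have := dvd_sub (hq.mul_right (U P Q (s + 1))) h1
      simpa using this
    have h3 : IsCoprime q (Q * U P Q m) :=
      IsCoprime.of_isCoprime_of_dvd_left (IsCoprime.mul_right (cop P Q h m).1 (cop P Q h m).2) hq
    exact h3.dvd_of_dvd_mul_left h2
  · intro h1
    exact dvd_sub (hq.mul_right _) (h1.mul_left _)

theorem rank (S : ℕ → Prop) (h0 : S 0) (r : ℕ) (hr : 1 ≤ r) (hs : ∀ s, S (r + s) ↔ S s)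
    (hmin : ∀ j ∈ Ioo 0 r, ¬ S j) (j : ℕ) : S j ↔ r ∣ j := by
  induction j using Nat.strong_induction_on with
  | _ j ih =>
    by_cases hj : r ≤ j
    · obtain ⟨s, rfl⟩ : ∃ s, j = r + s := ⟨j - r, by omega⟩
      rw [hs, ih s (by omega)]
      simp
    · rcases Nat.eq_zero_or_pos j with rfl | hj0
      · simp [h0]
      · constructor
        · intro h; exact absurd h (hmin j (by simp; omega))
        · intro h; exact absurd (Nat.le_of_dvd hj0 h) hj

theorem count (S : ℕ → Prop) [DecidablePred S] (h0 : S 0)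
    (hs : ∀ r, 1 ≤ r → S r → ∀ s, S (r + s) ↔ S s) (k n : ℕ) (hkn : k ≤ n) :
    ((if 0 < ((Ioc (n - k) n).filter S).card then 1 else 0) + ((Ioc 0 k).filter S).card
      ≤ ((Ioc (n - k) n).filter S).card + (if 0 < ((Ioc 0 k).filter S).card then 1 else 0)) ∧
    (((if 0 < ((Ioc (n - k) n).filter S).card then 1 else 0) + ((Ioc 0 k).filter S).card
      = ((Ioc (n - k) n).filter S).card + (if 0 < ((Ioc 0 k).filter S).card then 1 else 0)) ↔
      ∀ d, 1 ≤ d → d ≤ k → S d → (∀ j ∈ Ioo 0 d, ¬ S j) → k % d ≤ n % d) := by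
  classical
  by_cases h : ∃ r, 1 ≤ r ∧ S r
  · obtain ⟨r, hr1, hrS, hmin⟩ : ∃ r, 1 ≤ r ∧ S r ∧ ∀ j ∈ Ioo 0 r, ¬ S j := by
      refine ⟨Nat.find h, (Nat.find_spec h).1, (Nat.find_spec h).2, fun j hj hS => ?_⟩
      rw [mem_Ioo] at hj
      exact Nat.find_min h hj.2 ⟨hj.1, hS⟩
    have hR := rank S h0 r hr1 (hs r hr1 hrS) hmin
    have hc : ∀ m, ((Ioc 0 m).filter S).card = m / r := by
      intro m
      rw [← Nat.Ioc_filter_dvd_card_eq_div]
      congr 1
      exact filter_congr fun x _ => hR x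
    have hW : ((Ioc (n - k) n).filter S).card + (n - k) / r = n / r := by
      rw [← hc, ← hc n, ← Ioc_union_Ioc_eq_Ioc (Nat.zero_le (n - k)) (Nat.sub_le n k), filter_union,
        card_union_of_disjoint, add_comm]
      apply disjoint_filter_filter
      rw [disjoint_left]
      intro x hx hx'
      rw [mem_Ioc] at hx hx'
      omega
    have hdiv : n / r = (n - k) / r + k / r + if r ≤ (n - k) % r + k % r then 1 else 0 := by
      rw [← Nat.add_div hr1, Nat.sub_add_cancel hkn]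
    have hmod : n % r = ((n - k) % r + k % r) % r := by
      rw [← Nat.add_mod, Nat.sub_add_cancel hkn]
    have ha := Nat.mod_lt (n - k) hr1
    have hb := Nat.mod_lt k hr1
    have hiff : (∀ d, 1 ≤ d → d ≤ k → S d → (∀ j ∈ Ioo 0 d, ¬ S j) → k % d ≤ n % d) ↔
        (r ≤ k → k % r ≤ n % r) := by
      constructor
      · intro H hk; exact H r hr1 hk hrS hmin
      · intro H d hd1 hdk hdS hdmin
        have : d = r := by
          rcases lt_trichotomy d r with h1 | h1 | h1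
          · exact absurd hdS (hmin d (by simp; omega))
          · exact h1
          · exact absurd hrS (hdmin r (by simp; omega))
        subst this
        exact H hdk
    rw [hiff, hc k]
    have hq : r ≤ k ↔ 0 < k / r := by
      rw [Nat.div_pos_iff]; omega
    rw [hq]
    by_cases hle : r ≤ (n - k) % r + k % r
    · rw [if_pos hle] at hdiv
      have hm2 : n % r = (n - k) % r + k % r - r := by
        rw [hmod, Nat.mod_eq_sub_mod hle, Nat.mod_eq_of_lt (by omega)]
      generalize ((Ioc (n - k) n).filter S).card = w at *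
      generalize k / r = u at *
      split_ifs <;> omega
    · rw [if_neg hle] at hdiv
      have hm2 : n % r = (n - k) % r + k % r := by
        rw [hmod, Nat.mod_eq_of_lt (by omega)]
      generalize ((Ioc (n - k) n).filter S).card = w at *
      generalize k / r = u at *
      split_ifs <;> omega
  · push Not at h
    have e : ∀ a b : ℕ, ((Ioc a b).filter S).card = 0 := by
      intro a b
      rw [card_eq_zero, filter_eq_empty_iff]
      intro x hx
      rw [mem_Ioc] at hx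
      exact h x (by omega)
    rw [e, e]
    refine ⟨by simp, ?_⟩
    simp only [lt_self_iff_false, if_false, true_iff]
    intro d hd _ hS
    exact absurd hS (h d hd)

theorem fact_eq (p : ℕ) (hp : p.Prime) (x : ℕ) (hx : x ≠ 0) (T : ℕ) (hT : x.factorization p ≤ T) :
    x.factorization p = ∑ t ∈ Icc 1 T, if p ^ t ∣ x then 1 else 0 := by
  rw [← card_filter]
  have : (Icc 1 T).filter (fun t => p ^ t ∣ x) = Icc 1 (x.factorization p) := by
    ext t
    simp only [mem_filter, mem_Icc, hp.pow_dvd_iff_le_factorization hx]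
    omega
  rw [this]; simp

theorem pow_dvd_lcm (a : ℕ → ℕ) (p t : ℕ) (hp : p.Prime) (ht : 1 ≤ t) (s : Finset ℕ)
    (ha : ∀ j ∈ s, a j ≠ 0) : p ^ t ∣ s.lcm a ↔ ∃ j ∈ s, p ^ t ∣ a j := by
  induction s using Finset.induction_on with
  | empty =>
    simp only [lcm_empty, Nat.dvd_one, notMem_empty, false_and, exists_false, iff_false]
    exact (Nat.one_lt_pow (by omega) hp.one_lt).ne'
  | insert b s hb ih =>
    have ha' : ∀ j ∈ s, a j ≠ 0 := fun j hj => ha j (mem_insert_of_mem hj)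
    have h1 : a b ≠ 0 := ha b (mem_insert_self _ _)
    have h2 : s.lcm a ≠ 0 := by
      rw [Ne, Finset.lcm_eq_zero_iff]
      rintro ⟨j, hj, h⟩
      exact ha' j hj h
    rw [lcm_insert, exists_mem_insert, ← ih ha', lcm_eq_nat_lcm,
      hp.pow_dvd_iff_le_factorization (Nat.lcm_ne_zero h1 h2),
      hp.pow_dvd_iff_le_factorization h1, hp.pow_dvd_iff_le_factorization h2,
      Nat.factorization_lcm h1 h2, Finsupp.sup_apply, le_sup_iff]

theorem fact_prod (a : ℕ → ℕ) (p : ℕ) (hp : p.Prime) (s : Finset ℕ) (ha : ∀ j ∈ s, a j ≠ 0)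
    (T : ℕ) (hT : (∏ j ∈ s, a j).factorization p ≤ T) :
    (∏ j ∈ s, a j).factorization p
      = ∑ t ∈ Icc 1 T, (s.filter fun j => p ^ t ∣ a j).card ∧
    (s.lcm a).factorization p
      = ∑ t ∈ Icc 1 T, if 0 < (s.filter fun j => p ^ t ∣ a j).card then 1 else 0 := by
  have h0 : (∏ j ∈ s, a j) ≠ 0 := prod_ne_zero_iff.mpr ha
  have hle : ∀ x, x ∣ ∏ j ∈ s, a j → x.factorization p ≤ T := by
    intro x hx
    exact ((Nat.factorization_le_iff_dvd (ne_zero_of_dvd_ne_zero h0 hx) h0).mpr hx p).trans hT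
  constructor
  · rw [Nat.factorization_prod ha, Finsupp.finsetSum_apply]
    simp only [card_filter]
    rw [sum_comm]
    exact sum_congr rfl fun j hj => fact_eq p hp _ (ha j hj) T (hle _ (dvd_prod_of_mem a hj))
  · have hd : s.lcm a ∣ ∏ j ∈ s, a j := Finset.lcm_dvd fun j hj => dvd_prod_of_mem a hj
    rw [fact_eq p hp _ (ne_zero_of_dvd_ne_zero h0 hd) T (hle _ hd)]
    refine sum_congr rfl fun t ht => ?_
    rw [mem_Icc] at ht
    have : p ^ t ∣ s.lcm a ↔ 0 < (s.filter fun j => p ^ t ∣ a j).card := by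
      rw [pow_dvd_lcm a p t hp ht.1 s ha, card_pos]
      simp [Finset.Nonempty]
    simp only [this]

theorem main (a : ℕ → ℕ) (h0 : a 0 = 0) (ha : ∀ j, 1 ≤ j → a j ≠ 0)
    (hs : ∀ q r, 1 ≤ r → q ∣ a r → ∀ s, q ∣ a (r + s) ↔ q ∣ a s) (k n : ℕ) (hkn : k ≤ n) :
    (Ioc (n - k) n).lcm a * ∏ j ∈ Ioc 0 k, a j = (∏ j ∈ Ioc (n - k) n, a j) * (Ioc 0 k).lcm a ↔
      ∀ d, 1 ≤ d → d ≤ k → ¬ a d ∣ (Ioo 0 d).lcm a → k % d ≤ n % d := by
  have haW : ∀ j ∈ Ioc (n - k) n, a j ≠ 0 := fun j hj => ha j (by rw [mem_Ioc] at hj; omega)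
  have haK : ∀ j ∈ Ioc 0 k, a j ≠ 0 := fun j hj => ha j (by rw [mem_Ioc] at hj; omega)
  have haO : ∀ d, ∀ j ∈ Ioo 0 d, a j ≠ 0 := fun d j hj => ha j (by rw [mem_Ioo] at hj; omega)
  have hA : (∏ j ∈ Ioc (n - k) n, a j) ≠ 0 := prod_ne_zero_iff.mpr haW
  have hB : (∏ j ∈ Ioc 0 k, a j) ≠ 0 := prod_ne_zero_iff.mpr haK
  have hLA : (Ioc (n - k) n).lcm a ≠ 0 :=
    ne_zero_of_dvd_ne_zero hA (Finset.lcm_dvd fun j hj => dvd_prod_of_mem a hj)
  have hLB : (Ioc 0 k).lcm a ≠ 0 :=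
    ne_zero_of_dvd_ne_zero hB (Finset.lcm_dvd fun j hj => dvd_prod_of_mem a hj)
  have key : ∀ p, p.Prime → ∀ T, (∏ j ∈ Ioc (n - k) n, a j).factorization p ≤ T →
      (∏ j ∈ Ioc 0 k, a j).factorization p ≤ T →
      ((((Ioc (n - k) n).lcm a * ∏ j ∈ Ioc 0 k, a j).factorization p =
        ((∏ j ∈ Ioc (n - k) n, a j) * (Ioc 0 k).lcm a).factorization p) ↔
      ∀ t ∈ Icc 1 T, ∀ d, 1 ≤ d → d ≤ k → p ^ t ∣ a d → (∀ j ∈ Ioo 0 d, ¬ p ^ t ∣ a j) →
        k % d ≤ n % d) := by
    intro p hp T hT1 hT2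
    obtain ⟨e1, e2⟩ := fact_prod a p hp _ haW T hT1
    obtain ⟨e3, e4⟩ := fact_prod a p hp _ haK T hT2
    have hc := fun t => count (fun j => p ^ t ∣ a j) (by simp [h0]) (hs (p ^ t)) k n hkn
    rw [Nat.factorization_mul hLA hB, Nat.factorization_mul hA hLB, Finsupp.add_apply,
      Finsupp.add_apply, e1, e2, e3, e4, ← sum_add_distrib, ← sum_add_distrib,
      sum_eq_sum_iff_of_le fun t _ => (hc t).1]
    exact forall₂_congr fun t _ => (hc t).2
  constructor
  · intro h d hd1 hdk hnd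
    rw [Nat.dvd_iff_prime_pow_dvd_dvd] at hnd
    push Not at hnd
    obtain ⟨p, t, hp, h1, h2⟩ := hnd
    have ht : 1 ≤ t := by
      rcases Nat.eq_zero_or_pos t with rfl | ht
      · simp at h2
      · exact ht
    rw [pow_dvd_lcm a p t hp ht _ (haO d)] at h2
    push Not at h2
    exact (key p hp ((∏ j ∈ Ioc (n - k) n, a j).factorization p +
      (∏ j ∈ Ioc 0 k, a j).factorization p + t) (by omega) (by omega)).mp (by rw [h]) t
      (by rw [mem_Icc]; omega) d hd1 hdk h1 h2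
  · intro h
    apply Nat.eq_of_factorization_eq (mul_ne_zero hLA hB) (mul_ne_zero hA hLB)
    intro p
    by_cases hp : p.Prime
    · apply (key p hp ((∏ j ∈ Ioc (n - k) n, a j).factorization p +
        (∏ j ∈ Ioc 0 k, a j).factorization p) (by omega) (by omega)).mpr
      intro t ht d hd1 hdk h1 h2
      rw [mem_Icc] at ht
      apply h d hd1 hdk
      intro hdvd
      obtain ⟨j, hj, hj'⟩ := (pow_dvd_lcm a p t hp ht.1 _ (haO d)).mp (h1.trans hdvd)
      exact h2 j hj hj'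
    · rw [Nat.factorization_eq_zero_of_not_prime _ hp, Nat.factorization_eq_zero_of_not_prime _ hp]

theorem general (A : ℕ → ℤ) (h : DivShift A) (k n : ℕ) (hkn : k ≤ n) :
    lcmBinomA A n k = binomA A n k ↔
      (0 < binomA A n k ∧
        ∀ d, 1 ≤ d → d ≤ k → ¬ (A d).natAbs ∣ lcmA A (Ioo 0 d) → k % d ≤ n % d) := by
  obtain ⟨hz, hU, hsh⟩ := h
  have ha : ∀ j, 1 ≤ j → (A j).natAbs ≠ 0 := fun j hj => Int.natAbs_ne_zero.mpr (hU j hj)
  have hm := main (fun j => (A j).natAbs) (by simp [hz]) ha (by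
    intro q r hr hq s
    simp only [← Int.natCast_dvd] at hq ⊢
    exact hsh q r s hr hq) k n hkn
  unfold lcmA
  rw [← hm]
  have hB : (∏ j ∈ Ioc 0 k, (A j).natAbs) ≠ 0 :=
    prod_ne_zero_iff.mpr fun j hj => ha j (by rw [mem_Ioc] at hj; omega)
  have hA : (∏ j ∈ Ioc (n - k) n, (A j).natAbs) ≠ 0 :=
    prod_ne_zero_iff.mpr fun j hj => ha j (by rw [mem_Ioc] at hj; omega)
  have hLA : lcmA A (Ioc (n - k) n) ≠ 0 :=
    ne_zero_of_dvd_ne_zero hA (Finset.lcm_dvd fun j hj => dvd_prod_of_mem _ hj)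
  have hLB : lcmA A (Ioc 0 k) ≠ 0 :=
    ne_zero_of_dvd_ne_zero hB (Finset.lcm_dvd fun j hj => dvd_prod_of_mem _ hj)
  have habs : |binomA A n k| = ((∏ j ∈ Ioc (n - k) n, (A j).natAbs : ℕ) : ℚ) /
      ((∏ j ∈ Ioc 0 k, (A j).natAbs : ℕ) : ℚ) := by
    unfold binomA
    rw [abs_div, abs_prod, abs_prod]
    simp [Nat.cast_natAbs]
  have hpos : 0 < lcmBinomA A n k := by
    unfold lcmBinomA
    exact div_pos (by exact_mod_cast Nat.pos_of_ne_zero hLA) (by exact_mod_cast Nat.pos_of_ne_zero hLB)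
  have hiff : lcmBinomA A n k = |binomA A n k| ↔
      ((Ioc (n - k) n).lcm fun j => (A j).natAbs) * ∏ j ∈ Ioc 0 k, (A j).natAbs =
      (∏ j ∈ Ioc (n - k) n, (A j).natAbs) * (Ioc 0 k).lcm fun j => (A j).natAbs := by
    rw [habs, lcmBinomA, div_eq_div_iff (by exact_mod_cast hLB) (by exact_mod_cast hB)]
    unfold lcmA
    exact_mod_cast Iff.rfl
  rw [← hiff]
  constructor
  · intro h
    have h1 : 0 < binomA A n k := h ▸ hpos
    exact ⟨h1, by rw [abs_of_pos h1, h]⟩
  · rintro ⟨h1, h⟩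
    rw [h, abs_of_pos h1]

/-- (1) For every sequence with the shift property (in particular every strong divisibility sequence, (2), and
every Lucas sequence of the problem, (3)) the lcm-analogue of the binomial coefficient is equal to the
binomial coefficient if and only if the latter is positive and `k % d ≤ n % d` for every `d ≤ k` such that
`A d` does not divide `lcm (A 1, …, A (d - 1))`. -/
theorem result :
    (∀ A : ℕ → ℤ, DivShift A → ∀ k n : ℕ, k ≤ n →
      (lcmBinomA A n k = binomA A n k ↔ (0 < binomA A n k ∧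
        ∀ d, 1 ≤ d → d ≤ k → ¬ (A d).natAbs ∣ lcmA A (Ioo 0 d) → k % d ≤ n % d))) ∧
    (∀ A : ℕ → ℤ, A 0 = 0 → (∀ j, 1 ≤ j → A j ≠ 0) → StrongDiv A → DivShift A) ∧
    (∀ P Q : ℤ, IsCoprime P Q → (∀ j, 1 ≤ j → U P Q j ≠ 0) → DivShift (U P Q)) :=
  ⟨fun A h k n hkn => general A h k n hkn,
    fun A h0 h1 h2 => ⟨h0, h1, fun q r s _ hq => h2.shift q r s hq⟩,
    fun P Q hc hU => ⟨by simp [U], hU, fun q r s hr hq => shift P Q hc q r s hr hq⟩⟩

end Pool.Agent.Results.MP_763eff_nt.StrongDivisibilitySequences
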